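import Mathlib

/-!
Combinatorial lemma: among at most `k` points of the cyclic group `ZMod (2h)` there is one, `θ`,
such that the free stretch before `θ` and the free stretch before `θ + h` have together length at
least about `3h/k`.
-/

set_option autoImplicit false

namespace Pool.Agent.OPT22

open Finset

/-- Two free stretches of total length `b`: the `i₁` positions before `z` and the `i₂` positions
before `z + h` contain no element of `K`. -/
theorem free_stretches (h k b : ℕ) (hh : 0 < h) (K : Finset (ZMod (2 * h))) (hK : K.Nonempty)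
    (hk : K.card ≤ k) (hb : k * (b + 1) < 3 * h) :
    ∃ (z : ℤ) (i₁ i₂ : ℕ), i₁ + i₂ = b ∧
      (∀ i : ℕ, 1 ≤ i → i ≤ i₁ → ((z - i : ℤ) : ZMod (2 * h)) ∉ K) ∧
      (∀ i : ℕ, 1 ≤ i → i ≤ i₂ → ((z + h - i : ℤ) : ZMod (2 * h)) ∉ K) := by
  classical
  have hn : 0 < 2 * h := by omega
  have : NeZero (2 * h) := ⟨hn.ne'⟩
  -- first return backwards
  have hg : ∀ θ : ZMod (2 * h), θ ∈ K → ∃ i : ℕ, 1 ≤ i ∧ θ - i ∈ K := by
    intro θ hθ
    refine ⟨2 * h, by omega, ?_⟩
    rw [ZMod.natCast_self]; simpa using hθ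
  have he : ∀ θ : ZMod (2 * h), θ ∈ K → ∃ i : ℕ, 1 ≤ i ∧ θ + h - i ∈ K := by
    intro θ hθ
    refine ⟨h, by omega, ?_⟩
    simpa using hθ
  let g : ZMod (2 * h) → ℕ := fun θ => if H : θ ∈ K then Nat.find (hg θ H) else 0
  let e : ZMod (2 * h) → ℕ := fun θ => if H : θ ∈ K then Nat.find (he θ H) else 0
  have g_pos : ∀ θ ∈ K, 1 ≤ g θ := fun θ hθ => by
    simp only [g, dif_pos hθ]; exact (Nat.find_spec (hg θ hθ)).1
  have e_pos : ∀ θ ∈ K, 1 ≤ e θ := fun θ hθ => by
    simp only [e, dif_pos hθ]; exact (Nat.find_spec (he θ hθ)).1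
  have g_min : ∀ θ ∈ K, ∀ i : ℕ, 1 ≤ i → i < g θ → θ - i ∉ K := fun θ hθ i hi1 hi2 hc => by
    simp only [g, dif_pos hθ] at hi2
    exact Nat.find_min (hg θ hθ) hi2 ⟨hi1, hc⟩
  have e_min : ∀ θ ∈ K, ∀ i : ℕ, 1 ≤ i → i < e θ → θ + h - i ∉ K := fun θ hθ i hi1 hi2 hc => by
    simp only [e, dif_pos hθ] at hi2
    exact Nat.find_min (he θ hθ) hi2 ⟨hi1, hc⟩
  -- lower bounds for g, e from freeness
  have g_ge : ∀ θ ∈ K, ∀ i : ℕ, (∀ i' : ℕ, 1 ≤ i' → i' ≤ i → θ - i' ∉ K) → i < g θ := by
    intro θ hθ i hi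
    by_contra hc
    push Not at hc
    have h1 := g_pos θ hθ
    apply hi (g θ) h1 hc
    simp only [g, dif_pos hθ]; exact (Nat.find_spec (hg θ hθ)).2
  have e_ge : ∀ θ ∈ K, ∀ i : ℕ, (∀ i' : ℕ, 1 ≤ i' → i' ≤ i → θ + h - i' ∉ K) → i < e θ := by
    intro θ hθ i hi
    by_contra hc
    push Not at hc
    have h1 := e_pos θ hθ
    apply hi (e θ) h1 hc
    simp only [e, dif_pos hθ]; exact (Nat.find_spec (he θ hθ)).2
  -- sum of g is at least 2h
  have sum_g : 2 * h ≤ ∑ θ ∈ K, g θ := by
    have hcov : (univ : Finset (ZMod (2 * h))) ⊆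
        K.biUnion (fun θ => (range (g θ)).image (fun i : ℕ => θ - i)) := by
      intro x _
      obtain ⟨θ₀, hθ₀⟩ := hK
      have hex : ∃ i : ℕ, x + i ∈ K := ⟨(θ₀ - x).val, by
        rw [ZMod.natCast_val, ZMod.cast_id]; simpa using hθ₀⟩
      rw [mem_biUnion]
      refine ⟨x + (Nat.find hex : ℕ), Nat.find_spec hex, ?_⟩
      rw [mem_image]
      refine ⟨Nat.find hex, mem_range.2 ?_, by ring⟩
      apply g_ge _ (Nat.find_spec hex)
      intro i' h1 h2 hc
      apply Nat.find_min hex (m := Nat.find hex - i') (by omega)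
      have : x + ((Nat.find hex - i' : ℕ) : ZMod (2 * h)) =
          x + (Nat.find hex : ℕ) - i' := by
        rw [Nat.cast_sub h2]; ring
      rw [this]; exact hc
    have h1 := card_le_card hcov
    rw [card_univ, ZMod.card] at h1
    refine h1.trans (card_biUnion_le.trans ?_)
    apply sum_le_sum
    intro θ _
    exact card_image_le.trans (by simp)
  -- sum of e is at least h
  have sum_e : h ≤ ∑ θ ∈ K, e θ := by
    have hcov : (range h : Finset ℕ) ⊆
        K.biUnion (fun θ => (range (e θ)).image (fun i : ℕ => (θ - i).val % h)) := by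
      intro x hx
      obtain ⟨θ₀, hθ₀⟩ := hK
      have hex : ∃ i : ℕ, ((x : ZMod (2 * h)) + i ∈ K ∨ (x : ZMod (2 * h)) + i + h ∈ K) :=
        ⟨(θ₀ - x).val, by
          left; rw [ZMod.natCast_val, ZMod.cast_id]; simpa using hθ₀⟩
      have hmin := fun m (hm : m < Nat.find hex) => Nat.find_min hex hm
      have h2h : ((h : ZMod (2 * h)) + h) = 0 := by
        have := ZMod.natCast_self (2 * h)
        rw [Nat.cast_mul] at this
        rw [← two_mul]; exact_mod_cast this
      rw [mem_biUnion]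
      have key : ∀ θ : ZMod (2 * h), θ ∈ K → (θ = x + (Nat.find hex : ℕ) ∨
          θ = x + (Nat.find hex : ℕ) + h) → Nat.find hex < e θ := by
        intro θ hθ hθ2
        apply e_ge θ hθ
        intro i' h1 h2 hc
        have h3 := hmin (Nat.find hex - i') (by omega)
        push Not at h3
        have h4 : ((Nat.find hex - i' : ℕ) : ZMod (2 * h)) = (Nat.find hex : ℕ) - i' := by
          rw [Nat.cast_sub h2]
        rw [h4] at h3
        rcases hθ2 with rfl | rfl
        · apply h3.2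
          convert hc using 1; ring
        · apply h3.1
          convert hc using 1
          linear_combination (-1 : ZMod (2 * h)) * h2h
      rcases Nat.find_spec hex with hs | hs
      · refine ⟨_, hs, mem_image.2 ⟨Nat.find hex, mem_range.2 (key _ hs (Or.inl rfl)), ?_⟩⟩
        have : (x : ZMod (2 * h)) + (Nat.find hex : ℕ) - (Nat.find hex : ℕ) = x := by ring
        rw [this, ZMod.val_natCast]
        have hx := mem_range.1 hx
        rw [Nat.mod_mod_of_dvd _ (Dvd.intro_left 2 rfl), Nat.mod_eq_of_lt hx]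
      · refine ⟨_, hs, mem_image.2 ⟨Nat.find hex, mem_range.2 (key _ hs (Or.inr rfl)), ?_⟩⟩
        have : (x : ZMod (2 * h)) + (Nat.find hex : ℕ) + h - (Nat.find hex : ℕ) =
            ((x + h : ℕ) : ZMod (2 * h)) := by push_cast; ring
        rw [this, ZMod.val_natCast]
        have hx := mem_range.1 hx
        rw [Nat.mod_mod_of_dvd _ (Dvd.intro_left 2 rfl), Nat.add_mod_right, Nat.mod_eq_of_lt hx]
    have h1 := card_le_card hcov
    rw [card_range] at h1
    refine h1.trans (card_biUnion_le.trans ?_)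
    apply sum_le_sum
    intro θ _
    exact card_image_le.trans (by simp)
  -- some element has g + e ≥ b + 2
  have hbig : ∃ θ ∈ K, b + 2 ≤ g θ + e θ := by
    by_contra hc
    push Not at hc
    have h1 : ∑ θ ∈ K, (g θ + e θ) ≤ ∑ _θ ∈ K, (b + 1) :=
      sum_le_sum fun θ hθ => by have := hc θ hθ; omega
    rw [sum_add_distrib, sum_const, smul_eq_mul] at h1
    have h2 : K.card * (b + 1) ≤ k * (b + 1) := Nat.mul_le_mul_right _ hk
    omega
  obtain ⟨θ, hθ, hge⟩ := hbig
  have hg1 := g_pos θ hθ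
  have he1 := e_pos θ hθ
  have hcast : (((θ.val : ℕ) : ℤ) : ZMod (2 * h)) = θ := by
    rw [Int.cast_natCast, ZMod.natCast_val, ZMod.cast_id]
  refine ⟨((θ.val : ℕ) : ℤ), min (g θ - 1) b, b - min (g θ - 1) b, by omega, ?_, ?_⟩
  · intro i hi1 hi2
    have := g_min θ hθ i hi1 (by omega)
    intro hc; apply this
    push_cast at hc
    rw [ZMod.natCast_val, ZMod.cast_id] at hc
    exact hc
  · intro i hi1 hi2
    have := e_min θ hθ i hi1 (by omega)
    intro hc; apply this
    push_cast at hc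
    rw [ZMod.natCast_val, ZMod.cast_id] at hc
    exact hc

end Pool.Agent.OPT22
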