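import Mathlib

/-!
The family of tangent segments to the unit circle, and the lines that meet them.
-/

set_option autoImplicit false

namespace Pool.Agent.OPT22

open Real

/-- The segment of the tangent line to the unit circle at the angle `θ`, between the parameters
`-q` and `L`. -/
def seg (q L θ : ℝ) : Set (ℝ × ℝ) :=
  (fun t : ℝ => (cos θ - t * sin θ, sin θ + t * cos θ)) '' Set.Icc (-q) L

theorem seg_compact (q L θ : ℝ) : IsCompact (seg q L θ) := by
  apply isCompact_Icc.image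
  fun_prop

theorem seg_convex (q L θ : ℝ) : Convex ℝ (seg q L θ) := by
  rintro _ ⟨s, hs, rfl⟩ _ ⟨t, ht, rfl⟩ a b ha hb hab
  refine ⟨a * s + b * t, (convex_Icc (-q) L) hs ht ha hb hab, ?_⟩
  have hb' : b = 1 - a := by linarith
  subst hb'
  ext <;> simp <;> ring

theorem seg_add_int (q L θ : ℝ) (m : ℤ) : seg q L (θ + m * (2 * π)) = seg q L θ := by
  simp only [seg, cos_add_int_mul_two_pi, sin_add_int_mul_two_pi]

theorem seg_inj {q L θ θ' : ℝ} (hq : 0 ≤ q) (hL : 0 ≤ L) (h : seg q L θ = seg q L θ') :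
    cos (θ - θ') = 1 := by
  have h0 : ((cos θ, sin θ) : ℝ × ℝ) ∈ seg q L θ := ⟨0, ⟨by linarith, hL⟩, by simp⟩
  rw [h] at h0
  obtain ⟨t, _, ht⟩ := h0
  simp only [Prod.mk.injEq] at ht
  obtain ⟨h1, h2⟩ := ht
  have e1 := sin_sq_add_cos_sq θ
  have e2 := sin_sq_add_cos_sq θ'
  have ht0 : t ^ 2 = 0 := by
    rw [← h1, ← h2] at e1
    nlinarith
  have ht1 : t = 0 := by simpa using ht0
  subst ht1
  rw [cos_sub, ← h1, ← h2]
  nlinarith

/-- The line with unit normal at the angle `ψ` and distance `c` from the origin meets `A`. -/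
def Meets (ψ c : ℝ) (A : Set (ℝ × ℝ)) : Prop := ∃ x ∈ A, x.1 * cos ψ + x.2 * sin ψ = c

theorem trans_of_meets (ψ c : ℝ) (G : Set (Set (ℝ × ℝ))) (h : ∀ A ∈ G, Meets ψ c A) :
    ∃ p v : ℝ × ℝ, v ≠ 0 ∧ ∀ A ∈ G, ∃ t : ℝ, p + t • v ∈ A := by
  have e := sin_sq_add_cos_sq ψ
  refine ⟨(c * cos ψ, c * sin ψ), (-sin ψ, cos ψ), ?_, fun A hA => ?_⟩
  · intro h0
    rw [Prod.mk_eq_zero] at h0
    rw [h0.2, neg_eq_zero.1 h0.1] at e
    norm_num at e
  · obtain ⟨x, hx, hx2⟩ := h A hA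
    refine ⟨-x.1 * sin ψ + x.2 * cos ψ, ?_⟩
    have : ((c * cos ψ, c * sin ψ) : ℝ × ℝ) + (-x.1 * sin ψ + x.2 * cos ψ) • (-sin ψ, cos ψ) =
        x := by
      ext
      · simp only [Prod.fst_add, Prod.smul_fst, smul_eq_mul]
        rw [← hx2]; linear_combination x.1 * e
      · simp only [Prod.snd_add, Prod.smul_snd, smul_eq_mul]
        rw [← hx2]; linear_combination x.2 * e
    rw [this]; exact hx

theorem meets_of_trans (G : Set (Set (ℝ × ℝ)))
    (h : ∃ p v : ℝ × ℝ, v ≠ 0 ∧ ∀ A ∈ G, ∃ t : ℝ, p + t • v ∈ A) :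
    ∃ ψ c : ℝ, 0 ≤ c ∧ ∀ A ∈ G, Meets ψ c A := by
  obtain ⟨p, v, hv, h⟩ := h
  have key : ∃ ψ : ℝ, v.1 * cos ψ + v.2 * sin ψ = 0 := by
    set z : ℂ := ⟨-v.2, v.1⟩ with hz
    have hz0 : z ≠ 0 := by
      intro h0
      apply hv
      have h1 := congrArg Complex.re h0
      have h2 := congrArg Complex.im h0
      simp only [hz, Complex.zero_re, Complex.zero_im, neg_eq_zero] at h1 h2
      ext
      · exact h2
      · exact h1
    refine ⟨Complex.arg z, ?_⟩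
    rw [Complex.cos_arg hz0, Complex.sin_arg]
    simp only [hz]
    ring
  obtain ⟨ψ, hψ⟩ := key
  rcases le_total 0 (p.1 * cos ψ + p.2 * sin ψ) with hc | hc
  · refine ⟨ψ, _, hc, fun A hA => ?_⟩
    obtain ⟨t, ht⟩ := h A hA
    refine ⟨_, ht, ?_⟩
    simp only [Prod.fst_add, Prod.snd_add, Prod.smul_fst, Prod.smul_snd, smul_eq_mul]
    linear_combination t * hψ
  · refine ⟨ψ + π, -(p.1 * cos ψ + p.2 * sin ψ), by linarith, fun A hA => ?_⟩
    obtain ⟨t, ht⟩ := h A hA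
    refine ⟨_, ht, ?_⟩
    simp only [Prod.fst_add, Prod.snd_add, Prod.smul_fst, Prod.smul_snd, smul_eq_mul,
      cos_add_pi, sin_add_pi]
    linear_combination (-t) * hψ

/-- When a line meets a tangent segment. -/
theorem meets_seg_iff (q L θ ψ c : ℝ) :
    Meets ψ c (seg q L θ) ↔ ∃ t : ℝ, -q ≤ t ∧ t ≤ L ∧ cos (θ - ψ) - t * sin (θ - ψ) = c := by
  constructor
  · rintro ⟨_, ⟨t, ht, rfl⟩, hx⟩
    refine ⟨t, ht.1, ht.2, ?_⟩
    rw [← hx, cos_sub, sin_sub]
    simp only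
    ring
  · rintro ⟨t, h1, h2, h3⟩
    refine ⟨_, ⟨t, ⟨h1, h2⟩, rfl⟩, ?_⟩
    rw [← h3, cos_sub, sin_sub]
    simp only
    ring

/-- The sign computation behind the common transversal. -/
theorem sign_hit {δ w : ℝ} {a : ℝ} {i₁ i₂ : ℝ} (ha : 2 * a = π - (i₁ + i₂) * δ)
    (hw0 : 0 < w) (hw1 : w < 2 * π) (hi1 : 0 ≤ i₁ * δ) (hi2 : 0 ≤ i₂ * δ) (hi2' : i₂ * δ ≤ π)
    (h1 : w + i₁ * δ < 2 * π) (h2 : w + i₂ * δ < π ∨ π < w) :
    0 ≤ (cos (w - a) - cos (a + i₁ * δ)) / sin w := by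
  have e1 : cos (w - a) - cos (a + i₁ * δ) =
      2 * sin ((w + i₁ * δ) / 2) * cos ((w + i₂ * δ) / 2) := by
    rw [cos_sub_cos]
    have h3 : (w - a + (a + i₁ * δ)) / 2 = (w + i₁ * δ) / 2 := by ring
    have h4 : (w - a - (a + i₁ * δ)) / 2 = (w + i₂ * δ) / 2 - π / 2 := by
      linear_combination (-1 / 2) * ha
    rw [h3, h4, sin_sub_pi_div_two]
    ring
  have e2 : sin w = 2 * sin (w / 2) * cos (w / 2) := by
    rw [← sin_two_mul]; ring_nf
  have p1 : 0 < sin ((w + i₁ * δ) / 2) := sin_pos_of_pos_of_lt_pi (by linarith) (by linarith)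
  have p2 : 0 < sin (w / 2) := sin_pos_of_pos_of_lt_pi (by linarith) (by linarith)
  rw [e1, e2]
  rcases h2 with h2 | h2
  · have p3 : 0 < cos ((w + i₂ * δ) / 2) :=
      cos_pos_of_mem_Ioo ⟨by linarith, by linarith⟩
    have p4 : 0 < cos (w / 2) := cos_pos_of_mem_Ioo ⟨by linarith, by linarith⟩
    positivity
  · have p3 : cos ((w + i₂ * δ) / 2) < 0 :=
      cos_neg_of_pi_div_two_lt_of_lt (by linarith) (by linarith)
    have p4 : cos (w / 2) < 0 := cos_neg_of_pi_div_two_lt_of_lt (by linarith) (by linarith)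
    apply div_nonneg_of_nonpos
    · exact (mul_neg_of_pos_of_neg (by positivity) p3).le
    · exact (mul_neg_of_pos_of_neg (by positivity) p4).le

/-- The common transversal. -/
theorem meets_of_sign {L a w θ ψ c : ℝ} (hw : θ - ψ = w) (hcos : 0 < cos a)
    (hsin : sin w ≠ 0) (h : 0 ≤ (cos (w - a) - cos c) / sin w)
    (hL : (1 + 1 / cos a) / |sin w| ≤ L) :
    Meets ψ (cos c / cos a) (seg (tan a) L θ) := by
  rw [meets_seg_iff, hw]
  refine ⟨(cos w - cos c / cos a) / sin w, ?_, ?_, ?_⟩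
  · have : (cos w - cos c / cos a) / sin w + tan a =
        (cos (w - a) - cos c) / sin w / cos a := by
      rw [tan_eq_sin_div_cos, cos_sub]
      field_simp
      ring
    have h2 : 0 ≤ (cos (w - a) - cos c) / sin w / cos a := by positivity
    linarith
  · refine le_trans ?_ hL
    refine (le_abs_self _).trans ?_
    rw [abs_div]
    gcongr
    refine (abs_sub _ _).trans ?_
    have h3 : |cos c / cos a| ≤ 1 / cos a := by
      rw [abs_div, abs_of_pos hcos]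
      gcongr
      exact abs_cos_le_one c
    linarith [abs_cos_le_one w]
  · field_simp
    ring

/-- The sign condition when a line meets a tangent segment. -/
theorem sign_of_meets {L a θ ψ c₀ : ℝ} (hcos : 0 < cos a)
    (h : Meets ψ c₀ (seg (tan a) L θ)) :
    0 ≤ (cos (θ - ψ - a) - c₀ * cos a) * sin (θ - ψ) := by
  rw [meets_seg_iff] at h
  obtain ⟨t, h1, _, h3⟩ := h
  have e : (cos (θ - ψ - a) - c₀ * cos a) * sin (θ - ψ) =
      sin (θ - ψ) ^ 2 * cos a * (t + tan a) := by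
    rw [← h3, cos_sub (θ - ψ) a, tan_eq_sin_div_cos]
    field_simp
    ring
  rw [e]
  have : 0 ≤ t + tan a := by linarith
  positivity

/-- Two ranges of missed segments. -/
theorem missed {L a ψ c₀ : ℝ} (ha0 : 0 ≤ a) (ha : a < π / 2) (hc₀ : 0 ≤ c₀) :
    ∃ c : ℝ, 0 ≤ c ∧ c ≤ π / 2 ∧ ∀ θ : ℝ,
      ((c + a < θ - ψ ∧ θ - ψ < π) ∨ (a - c < θ - ψ ∧ θ - ψ < 0)) →
      ¬ Meets ψ c₀ (seg (tan a) L θ) := by
  have hcos : 0 < cos a := cos_pos_of_mem_Ioo ⟨by linarith, ha⟩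
  have hc1 : 0 ≤ c₀ * cos a := by positivity
  refine ⟨arccos (min (c₀ * cos a) 1), arccos_nonneg _,
    arccos_le_pi_div_two.2 (le_min hc1 zero_le_one), ?_⟩
  set c := arccos (min (c₀ * cos a) 1) with hc
  have hcc : cos c = min (c₀ * cos a) 1 :=
    cos_arccos (by linarith [le_min hc1 (zero_le_one (α := ℝ))]) (min_le_right _ _)
  have hc0 : 0 ≤ c := arccos_nonneg _
  have hcp : c ≤ π / 2 := arccos_le_pi_div_two.2 (le_min hc1 zero_le_one)
  intro θ hθ hm
  have hs := sign_of_meets hcos hm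
  rcases hθ with ⟨h1, h2⟩ | ⟨h1, h2⟩
  · have p1 : 0 < sin (θ - ψ) := sin_pos_of_pos_of_lt_pi (by linarith) h2
    have p2 : cos (θ - ψ - a) < cos c :=
      cos_lt_cos_of_nonneg_of_le_pi hc0 (by linarith) (by linarith)
    have p3 : cos c ≤ c₀ * cos a := hcc ▸ min_le_left _ _
    have := mul_neg_of_neg_of_pos (show cos (θ - ψ - a) - c₀ * cos a < 0 by linarith) p1
    linarith
  · have p1 : sin (θ - ψ) < 0 := sin_neg_of_neg_of_neg_pi_lt h2 (by linarith [pi_pos])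
    have p2 : cos c < cos (θ - ψ - a) := by
      rw [← cos_neg (θ - ψ - a)]
      exact cos_lt_cos_of_nonneg_of_le_pi (by linarith) (by linarith) (by linarith)
    have p3 : cos c = c₀ * cos a := by
      rcases min_choice (c₀ * cos a) 1 with h | h
      · rw [hcc, h]
      · exfalso
        rw [hcc, h] at p2
        exact absurd p2 (not_lt.2 (cos_le_one _))
    have := mul_neg_of_pos_of_neg (show 0 < cos (θ - ψ - a) - c₀ * cos a by linarith) p1
    linarith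

/-- The integers strictly between two reals. -/
theorem card_between (x y : ℝ) : y - x - 1 ≤ ((Finset.Ioo ⌊x⌋ ⌈y⌉).card : ℝ) := by
  rw [Int.card_Ioo]
  have h1 : ((⌈y⌉ - ⌊x⌋ - 1 : ℤ) : ℝ) ≤ (((⌈y⌉ - ⌊x⌋ - 1).toNat : ℕ) : ℝ) := by
    exact_mod_cast Int.self_le_toNat _
  refine le_trans ?_ h1
  push_cast
  linarith [Int.le_ceil y, Int.floor_le x]

theorem mem_between {x y : ℝ} {j : ℤ} (h : j ∈ Finset.Ioo ⌊x⌋ ⌈y⌉) : x < j ∧ (j : ℝ) < y := by
  rw [Finset.mem_Ioo] at h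
  exact ⟨Int.floor_lt.1 h.1, Int.lt_ceil.1 h.2⟩

end Pool.Agent.OPT22
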