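import Pool.Agent.OPT22.Comb
import Pool.Agent.OPT22.Geom

/-!
The family of `2h` tangent segments: every `k` of them have a common transversal, and no line
meets more than `2h - b + 2` of them, where `k (b + 1) < 3h`.
-/

set_option autoImplicit false

namespace Pool.Agent.OPT22

open Real Finset

/-- The step angle. -/
noncomputable def step (h : ℕ) : ℝ := π / h

/-- The half opening angle of the family. -/
noncomputable def ang (h b : ℕ) : ℝ := (π - b * step h) / 2

/-- The length of the segments. -/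
noncomputable def len (h b : ℕ) : ℝ :=
  ∑ m ∈ range (2 * h), (1 + 1 / cos (ang h b)) / |sin ((m + 1 / 2) * step h)|

/-- The segments of the family. -/
noncomputable def fam (h b : ℕ) (x : ZMod (2 * h)) : Set (ℝ × ℝ) :=
  seg (tan (ang h b)) (len h b) (x.val * step h)

section

variable {h b : ℕ}

theorem step_pos (hh : 0 < h) : 0 < step h := by
  have : (0 : ℝ) < h := by exact_mod_cast hh
  exact div_pos pi_pos this

theorem h_step (hh : 0 < h) : (h : ℝ) * step h = π := by
  have : (0 : ℝ) < h := by exact_mod_cast hh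
  unfold step
  field_simp

theorem ang_nonneg (hh : 0 < h) (hb2 : b ≤ h) : 0 ≤ ang h b := by
  have h1 : (b : ℝ) * step h ≤ h * step h :=
    mul_le_mul_of_nonneg_right (by exact_mod_cast hb2) (step_pos hh).le
  rw [h_step hh] at h1
  unfold ang
  linarith

theorem ang_lt (hh : 0 < h) (hb1 : 1 ≤ b) : ang h b < π / 2 := by
  have h1 : 0 < (b : ℝ) * step h := mul_pos (by exact_mod_cast hb1) (step_pos hh)
  unfold ang
  linarith

theorem cos_ang (hh : 0 < h) (hb1 : 1 ≤ b) (hb2 : b ≤ h) : 0 < cos (ang h b) :=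
  cos_pos_of_mem_Ioo ⟨by linarith [ang_nonneg hh hb2, pi_pos], ang_lt hh hb1⟩

theorem len_nonneg (hh : 0 < h) (hb1 : 1 ≤ b) (hb2 : b ≤ h) : 0 ≤ len h b := by
  have := cos_ang hh hb1 hb2
  unfold len
  exact sum_nonneg fun m _ => by positivity

theorem tan_nonneg (hh : 0 < h) (hb1 : 1 ≤ b) (hb2 : b ≤ h) : 0 ≤ tan (ang h b) :=
  tan_nonneg_of_nonneg_of_le_pi_div_two (ang_nonneg hh hb2) (ang_lt hh hb1).le

/-- The segment at an integer multiple of the step. -/
theorem fam_intCast (hh : 0 < h) (j : ℤ) :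
    fam h b (j : ZMod (2 * h)) = seg (tan (ang h b)) (len h b) (j * step h) := by
  have : NeZero (2 * h) := ⟨by omega⟩
  have h1 : (((j : ZMod (2 * h)).val : ℤ)) = j % ((2 * h : ℕ) : ℤ) := ZMod.val_intCast j
  have h2 : j = j % ((2 * h : ℕ) : ℤ) + ((2 * h : ℕ) : ℤ) * (j / ((2 * h : ℕ) : ℤ)) :=
    (Int.emod_add_mul_ediv _ _).symm
  have h3 : (j : ℝ) * step h = ((j : ZMod (2 * h)).val : ℝ) * step h +
      ((j / ((2 * h : ℕ) : ℤ) : ℤ) : ℝ) * (2 * π) := by
    have h4 : (j : ℝ) = ((j : ZMod (2 * h)).val : ℝ) +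
        (2 * h : ℝ) * ((j / ((2 * h : ℕ) : ℤ) : ℤ) : ℝ) := by
      have h5 : j = (((j : ZMod (2 * h)).val : ℤ)) +
          ((2 * h : ℕ) : ℤ) * (j / ((2 * h : ℕ) : ℤ)) := by rw [h1]; exact h2
      have h6 := congrArg (Int.cast : ℤ → ℝ) h5
      push_cast at h6 ⊢
      exact h6
    rw [← h_step hh]
    linear_combination (step h) * h4
  unfold fam
  rw [h3, seg_add_int]

theorem fam_injective (hh : 0 < h) (hb1 : 1 ≤ b) (hb2 : b ≤ h) :
    Function.Injective (fam h b) := by
  have : NeZero (2 * h) := ⟨by omega⟩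
  intro x y hxy
  have h1 := seg_inj (tan_nonneg hh hb1 hb2) (len_nonneg hh hb1 hb2) hxy
  obtain ⟨m, hm⟩ := (cos_eq_one_iff _).1 h1
  have h2 : (x.val : ℤ) - y.val = m * ((2 * h : ℕ) : ℤ) := by
    have h3 : ((x.val : ℝ) - y.val) * step h = (m * (2 * h)) * step h := by
      have := h_step hh
      linear_combination (-1 : ℝ) * hm - (2 * m : ℝ) * this
    have h4 := mul_right_cancel₀ (step_pos hh).ne' h3
    have h5 : (((x.val : ℤ) - y.val : ℤ) : ℝ) = ((m * ((2 * h : ℕ) : ℤ) : ℤ) : ℝ) := by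
      push_cast
      exact h4
    exact_mod_cast h5
  have h3 := congrArg (Int.cast : ℤ → ZMod (2 * h)) h2
  push_cast at h3
  have h4 : ((2 : ZMod (2 * h)) * (h : ZMod (2 * h))) = 0 := by
    have := ZMod.natCast_self (2 * h)
    push_cast at this
    exact this
  rw [h4, mul_zero, ZMod.natCast_val, ZMod.natCast_val, ZMod.cast_id, ZMod.cast_id] at h3
  exact sub_eq_zero.1 h3

/-- Every `k` segments have a common transversal. -/
theorem fam_trans {k : ℕ} (hh : 0 < h) (hb1 : 1 ≤ b) (hb2 : b ≤ h) (hb : k * (b + 1) < 3 * h)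
    (K : Finset (ZMod (2 * h))) (hk : K.card ≤ k) :
    ∃ ψ c : ℝ, ∀ x ∈ K, Meets ψ c (fam h b x) := by
  have : NeZero (2 * h) := ⟨by omega⟩
  rcases K.eq_empty_or_nonempty with rfl | hK
  · exact ⟨0, 0, by simp⟩
  obtain ⟨z, i₁, i₂, hi, hf1, hf2⟩ := free_stretches h k b hh K hK hk hb
  have hs := step_pos hh
  have hhs := h_step hh
  have ca := cos_ang hh hb1 hb2
  refine ⟨(z - 1 / 2) * step h, cos (ang h b + i₁ * step h) / cos (ang h b), fun x hx => ?_⟩
  set m : ℕ := (x - (z : ZMod (2 * h))).val with hm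
  have hm1 : m < 2 * h := ZMod.val_lt _
  have hxm : x = ((z + m : ℤ) : ZMod (2 * h)) := by
    push_cast
    rw [hm, ZMod.natCast_val, ZMod.cast_id]; ring
  -- the two conditions on m
  have c1 : m < 2 * h - i₁ := by
    by_contra hc
    have e1 := hf1 (2 * h - m) (by omega) (by omega)
    apply e1
    have : ((z - (2 * h - m : ℕ) : ℤ) : ZMod (2 * h)) = x := by
      rw [hxm, Nat.cast_sub hm1.le]
      have h4 := ZMod.natCast_self (2 * h)
      push_cast at h4 ⊢
      linear_combination (-1 : ZMod (2 * h)) * h4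
    rw [this]; exact hx
  have c2 : m + i₂ < h ∨ h ≤ m := by
    by_contra hc
    push Not at hc
    have e1 := hf2 (h - m) (by omega) (by omega)
    apply e1
    have : ((z + h - (h - m : ℕ) : ℤ) : ZMod (2 * h)) = x := by
      rw [hxm, Nat.cast_sub hc.2.le]
      push_cast
      ring
    rw [this]; exact hx
  rw [hxm, fam_intCast hh]
  have hib : ((i₁ : ℝ) + i₂) = b := by exact_mod_cast hi
  have cc1 : (m : ℝ) + i₁ + 1 ≤ 2 * h := by
    have : m + i₁ + 1 ≤ 2 * h := by omega
    exact_mod_cast this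
  have hi2h : (i₂ : ℝ) ≤ h := by
    have : i₂ ≤ h := by omega
    exact_mod_cast this
  have hmh : (m : ℝ) + 1 ≤ 2 * h := by
    have : m + 1 ≤ 2 * h := by omega
    exact_mod_cast this
  have hw0 : 0 < ((m : ℝ) + 1 / 2) * step h := by positivity
  have hw1 : ((m : ℝ) + 1 / 2) * step h < 2 * π := by
    rw [← hhs]; nlinarith
  have hsin : sin (((m : ℝ) + 1 / 2) * step h) ≠ 0 := by
    rcases lt_or_ge m h with hmlt | hmge
    · apply (sin_pos_of_pos_of_lt_pi hw0 _).ne'
      have : (m : ℝ) + 1 ≤ h := by exact_mod_cast hmlt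
      rw [← hhs]; nlinarith
    · have : (h : ℝ) ≤ m := by exact_mod_cast hmge
      have e1 : sin (((m : ℝ) + 1 / 2) * step h) = -sin (((m : ℝ) + 1 / 2) * step h - π) := by
        rw [sin_sub_pi, neg_neg]
      rw [e1, neg_ne_zero]
      apply (sin_pos_of_pos_of_lt_pi _ _).ne'
      · rw [← hhs]; nlinarith
      · linarith
  refine meets_of_sign (w := ((m : ℝ) + 1 / 2) * step h) ?_ ca hsin ?_ ?_
  · push_cast; ring
  · refine sign_hit (i₂ := i₂) ?_ hw0 hw1 (by positivity) (by positivity) ?_ ?_ ?_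
    · unfold ang; rw [hib]; ring
    · rw [← hhs]; nlinarith
    · rw [← hhs]; nlinarith
    · rcases c2 with c2 | c2
      · left
        have : (m : ℝ) + i₂ + 1 ≤ h := by exact_mod_cast c2
        rw [← hhs]; nlinarith
      · right
        have : (h : ℝ) ≤ m := by exact_mod_cast c2
        rw [← hhs]; nlinarith
  · unfold len
    exact single_le_sum (f := fun m : ℕ => (1 + 1 / cos (ang h b)) / |sin ((m + 1 / 2) * step h)|)
      (fun m _ => by positivity) (mem_range.2 hm1)

/-- No line meets more than `2h - b + 2` segments. -/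
theorem fam_hits (hh : 0 < h) (hb1 : 1 ≤ b) (hb2 : b ≤ h) (ψ c₀ : ℝ) (hc₀ : 0 ≤ c₀)
    (K : Finset (ZMod (2 * h))) (hK : ∀ x ∈ K, Meets ψ c₀ (fam h b x)) :
    (K.card : ℝ) ≤ 2 * h - b + 2 := by
  classical
  have : NeZero (2 * h) := ⟨by omega⟩
  have hs := step_pos hh
  have hhs := h_step hh
  have ha0 := ang_nonneg hh hb2
  obtain ⟨c, hc1, hc2, hmiss⟩ := missed (L := len h b) (ψ := ψ) ha0 (ang_lt hh hb1) hc₀
  set a := ang h b with ha
  set M₁ := Ioo ⌊(ψ + c + a) / step h⌋ ⌈(ψ + π) / step h⌉ with hM1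
  set M₂ := Ioo ⌊(ψ + a - c) / step h⌋ ⌈ψ / step h⌉ with hM2
  have m1 : ∀ j ∈ M₁, c + a < j * step h - ψ ∧ j * step h - ψ < π := by
    intro j hj
    obtain ⟨h1, h2⟩ := mem_between hj
    rw [div_lt_iff₀ hs] at h1
    rw [lt_div_iff₀ hs] at h2
    constructor <;> linarith
  have m2 : ∀ j ∈ M₂, a - c < j * step h - ψ ∧ j * step h - ψ < 0 := by
    intro j hj
    obtain ⟨h1, h2⟩ := mem_between hj
    rw [div_lt_iff₀ hs] at h1
    rw [lt_div_iff₀ hs] at h2
    constructor <;> linarith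
  have hdisj : Disjoint M₁ M₂ := by
    rw [Finset.disjoint_left]
    intro j h1 h2
    have := (m1 j h1).1
    have := (m2 j h2).2
    linarith
  have hrange : ∀ j ∈ M₁ ∪ M₂, -(π / 2) < j * step h - ψ ∧ j * step h - ψ < π := by
    intro j hj
    rcases mem_union.1 hj with hj | hj
    · have := m1 j hj
      constructor <;> linarith [pi_pos]
    · have := m2 j hj
      constructor <;> linarith [pi_pos]
  have hinj : Set.InjOn (fun j : ℤ => (j : ZMod (2 * h))) (M₁ ∪ M₂ : Finset ℤ) := by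
    intro i hi j hj hij
    have h1 := hrange i hi
    have h2 := hrange j hj
    have h3 : ((2 * h : ℕ) : ℤ) ∣ j - i := (ZMod.intCast_eq_intCast_iff_dvd_sub i j (2 * h)).1 hij
    have hlt : |j - i| < ((2 * h : ℕ) : ℤ) := by
      have h4 : |((j : ℝ) - i) * step h| < (2 * h) * step h := by
        rw [abs_lt]
        constructor <;> nlinarith
      rw [abs_mul, abs_of_pos hs] at h4
      have h5 := lt_of_mul_lt_mul_right h4 hs.le
      have h6 : ((|j - i| : ℤ) : ℝ) < (((2 * h : ℕ) : ℤ) : ℝ) := by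
        push_cast
        exact h5
      exact_mod_cast h6
    have := Int.eq_zero_of_abs_lt_dvd h3 hlt
    linarith
  have hcardM : (b : ℝ) - 2 ≤ ((M₁ ∪ M₂).card : ℝ) := by
    rw [card_union_of_disjoint hdisj]
    push_cast
    have e1 := card_between ((ψ + c + a) / step h) ((ψ + π) / step h)
    have e2 := card_between ((ψ + a - c) / step h) (ψ / step h)
    have e3 : (ψ + π) / step h - (ψ + c + a) / step h + (ψ / step h - (ψ + a - c) / step h) =
        b := by
      rw [ha]; unfold ang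
      field_simp
      ring
    linarith
  have hdis2 : Disjoint K ((M₁ ∪ M₂).image (fun j : ℤ => (j : ZMod (2 * h)))) := by
    rw [Finset.disjoint_left]
    intro x hx hx2
    obtain ⟨j, hj, rfl⟩ := mem_image.1 hx2
    have h1 := hK _ hx
    rw [fam_intCast hh] at h1
    refine hmiss _ ?_ h1
    rcases mem_union.1 hj with hj | hj
    · exact Or.inl (m1 j hj)
    · exact Or.inr (m2 j hj)
  have htot : (K.card : ℝ) + ((M₁ ∪ M₂).card : ℝ) ≤ 2 * h := by
    have h1 := card_le_univ (K ∪ (M₁ ∪ M₂).image (fun j : ℤ => (j : ZMod (2 * h))))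
    rw [card_union_of_disjoint hdis2, card_image_of_injOn hinj, ZMod.card] at h1
    exact_mod_cast h1
  linarith

end

end Pool.Agent.OPT22
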